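import Pool.Agent.Run7.h500.RD.Stm2
/-! # Piece FLIP2 (helper617) -/
set_option autoImplicit false
open MeasureTheory Filter Topology Set

namespace Pool.Agent.Run7.h617.RD.FLIP2
open Pool.Agent.Run7.h500.RD

/-- reflection in the x axis as a measurable equivalence -/
def refl2 : ℝ × ℝ ≃ᵐ ℝ × ℝ :=
  MeasurableEquiv.prodCongr (MeasurableEquiv.refl ℝ) (MeasurableEquiv.neg ℝ)

theorem refl2_apply (z : ℝ × ℝ) : refl2 z = (z.1, -z.2) := rfl

theorem refl2_mp : MeasurePreserving refl2 (volume : Measure (ℝ × ℝ)) volume :=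
  (MeasurePreserving.id (volume : Measure ℝ)).prod (Measure.measurePreserving_neg volume)

/-- reflection of the direction and of the plane -/
def refl3 : ℝ × (ℝ × ℝ) ≃ᵐ ℝ × (ℝ × ℝ) :=
  MeasurableEquiv.prodCongr (MeasurableEquiv.neg ℝ) refl2

theorem refl3_apply (t : ℝ × (ℝ × ℝ)) : refl3 t = (-t.1, (t.2.1, -t.2.2)) := rfl

theorem refl3_mp : MeasurePreserving refl3 (volume : Measure (ℝ × (ℝ × ℝ))) volume :=
  (Measure.measurePreserving_neg (volume : Measure ℝ)).prod refl2_mp

theorem WE_flip (f : ℝ × ℝ → ℝ) (ρ0 : ℝ) (a : ℝ) (h : WE f ρ0 a) :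
    WE (Pool.Agent.Run7.h500.RD.flip f) ρ0 (-a) := by
  unfold WE at *
  have h2 := (refl2_mp.integrable_comp_emb refl2.measurableEmbedding).2 h
  refine h2.congr (Eventually.of_forall (fun z => ?_))
  simp only [Function.comp, refl2_apply, Pool.Agent.Run7.h500.RD.flip]
  have e : z.1 - a * -z.2 = z.1 - -a * z.2 := by ring
  rw [e]

theorem LE_flip (f : ℝ × ℝ → ℝ) (ρ0 : ℝ) (a : ℝ) (h : LE' f ρ0 a) :
    LE' (Pool.Agent.Run7.h500.RD.flip f) ρ0 (-a) := by
  obtain ⟨δ, hδ, h⟩ := h
  refine ⟨δ, hδ, ?_⟩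
  have h2 := (refl3_mp.integrableOn_comp_preimage refl3.measurableEmbedding).2 h
  have hs : refl3 ⁻¹' (Ioo (a - δ) (a + δ) ×ˢ (univ : Set (ℝ × ℝ))) =
      Ioo (-a - δ) (-a + δ) ×ˢ (univ : Set (ℝ × ℝ)) := by
    ext t
    simp only [mem_preimage, refl3_apply, mem_prod, mem_Ioo, mem_univ, and_true]
    constructor
    · rintro ⟨h1, h2⟩
      constructor <;> linarith
    · rintro ⟨h1, h2⟩
      constructor <;> linarith
  rw [hs] at h2
  refine h2.congr (Eventually.of_forall (fun t => ?_))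
  simp only [Function.comp, refl3_apply, Pool.Agent.Run7.h500.RD.flip]
  have e : t.2.1 - -t.1 * -t.2.2 = t.2.1 - t.1 * t.2.2 := by ring
  rw [e]

theorem t_FLIP2 : S_FLIP2 := by
  intro f ρ0 m C h
  refine ⟨?_, ?_, ?_, ?_, ?_⟩
  · have hc := h.cont
    unfold Pool.Agent.Run7.h500.RD.flip
    exact hc.comp (by fun_prop)
  · intro x y
    have := h.growth x (-y)
    rw [abs_neg] at this
    exact this
  · intro a
    rcases h.wint (-a) with h1 | h1
    · left
      have := WE_flip f ρ0 (-a) h1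
      rwa [neg_neg] at this
    · right
      have := LE_flip f ρ0 (-a) h1
      rwa [neg_neg] at this
  · intro a b
    have h1 := h.zero (-a) b
    rw [← integral_neg_eq_self] at h1
    rw [← h1]
    refine integral_congr_ae (Eventually.of_forall (fun y => ?_))
    simp only [Pool.Agent.Run7.h500.RD.flip]
    have e : b + -a * -y = b + a * y := by ring
    rw [e]
  · intro y
    exact h.hor (-y)

end Pool.Agent.Run7.h617.RD.FLIP2
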