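import Pool.Agent.Run7.h500.RD.Stm2
/-! # Piece LIM2 (helper617; after helper576's LIM) -/
set_option autoImplicit false
open MeasureTheory Filter Topology Set

namespace Pool.Agent.Run7.h617.RD.LIM2
open Pool.Agent.Run7.h500.RD

lemma base_im (a η : ℝ) (c : ℂ) (x y : ℝ) :
    (((a : ℂ) + η * Complex.I) * (y : ℂ) - (x : ℂ) + c).im = η * y + c.im := by
  simp

lemma base_re (a η : ℝ) (c : ℂ) (x y : ℝ) :
    (((a : ℂ) + η * Complex.I) * (y : ℂ) - (x : ℂ) + c).re = a * y - x + c.re := by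
  simp

lemma base_low (a η : ℝ) (c : ℂ) (hη : 0 ≤ η) (x y : ℝ) (hy : 0 ≤ y) :
    c.im ≤ ‖((a : ℂ) + η * Complex.I) * (y : ℂ) - (x : ℂ) + c‖ := by
  have h2 := base_im a η c x y
  have h3 := Complex.abs_im_le_norm (((a : ℂ) + η * Complex.I) * (y : ℂ) - (x : ℂ) + c)
  have h4 := le_abs_self (((a : ℂ) + η * Complex.I) * (y : ℂ) - (x : ℂ) + c).im
  have h5 : 0 ≤ η * y := mul_nonneg hη hy
  linarith

lemma base_up (a η : ℝ) (c : ℂ) (x y : ℝ) :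
    |x - a * y| ≤ ‖((a : ℂ) + η * Complex.I) * (y : ℂ) - (x : ℂ) + c‖ + ‖c‖ := by
  have h2 : |a * y - x + c.re| ≤ ‖((a : ℂ) + η * Complex.I) * (y : ℂ) - (x : ℂ) + c‖ := by
    have h3 := Complex.abs_re_le_norm (((a : ℂ) + η * Complex.I) * (y : ℂ) - (x : ℂ) + c)
    rwa [base_re] at h3
  have h3 : |c.re| ≤ ‖c‖ := Complex.abs_re_le_norm c
  have h4 : |x - a * y| ≤ |a * y - x + c.re| + |c.re| := by
    have h5 : x - a * y = -(a * y - x + c.re) + c.re := by ring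
    rw [h5]
    refine (abs_add_le _ _).trans ?_
    rw [abs_neg]
  linarith

lemma up_meas : MeasurableSet up := measurableSet_lt measurable_const measurable_snd

lemma pow_dom (ρ0 ρ κ : ℝ) (h0 : 0 < ρ0) (h1 : ρ0 < ρ) (hκ : 0 < κ) :
    ∃ D : ℝ, ∀ t : ℝ, 0 ≤ t → t ^ ρ0 ≤ κ * t ^ ρ + D := by
  have hd : 0 < ρ - ρ0 := by linarith
  set T : ℝ := (1/κ)^(1/(ρ-ρ0)) with hT
  have hTpos : 0 < T := Real.rpow_pos_of_pos (by positivity) _
  refine ⟨T ^ ρ0, fun t ht => ?_⟩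
  rcases le_or_gt t T with h | h
  · have h2 : t ^ ρ0 ≤ T ^ ρ0 := Real.rpow_le_rpow ht h h0.le
    have h3 : 0 ≤ κ * t ^ ρ := by positivity
    linarith
  · have htp : 0 < t := hTpos.trans h
    have h2 : T ^ (ρ-ρ0) ≤ t ^ (ρ - ρ0) := Real.rpow_le_rpow hTpos.le h.le hd.le
    have h3 : T ^ (ρ-ρ0) = 1/κ := by
      rw [hT, ← Real.rpow_mul (by positivity), one_div_mul_cancel hd.ne', Real.rpow_one]
    have h4 : t ^ ρ = t ^ (ρ-ρ0) * t ^ ρ0 := by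
      rw [← Real.rpow_add htp]
      congr 1
      ring
    have h5 : 1 ≤ κ * t ^ (ρ-ρ0) := by
      rw [h3] at h2
      calc 1 = κ * (1/κ) := by field_simp
        _ ≤ _ := mul_le_mul_of_nonneg_left h2 hκ.le
    have h6 : 0 ≤ t ^ ρ0 := by positivity
    have h7 : 0 ≤ T ^ ρ0 := by positivity
    have h8 : t ^ ρ0 ≤ κ * t ^ ρ := by
      rw [h4, ← mul_assoc]
      calc t^ρ0 = 1 * t^ρ0 := (one_mul _).symm
        _ ≤ _ := mul_le_mul_of_nonneg_right h5 h6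
    linarith

lemma ker2_bound (hKER : S_KER2) (ρ0 ρ ε : ℝ) (k : ℕ) (c : ℂ) (hP : Par ρ0 ρ ε)
    (hc : 0 < c.im) :
    ∃ B : ℝ, 0 ≤ B ∧ ∀ a η : ℝ, 0 ≤ η → ∀ z : ℝ × ℝ, 0 ≤ z.2 →
      ‖ker2 ρ ε k c ((a : ℂ) + η * Complex.I) z‖ ≤
        B * Real.exp (-(|z.1 - a * z.2| ^ ρ0)) := by
  have hρ : 0 < ρ := hP.h0.trans hP.h1
  have hρ1 : ρ0 < 1 := hP.h1.trans hP.h2
  obtain ⟨-, hE, -, -⟩ := hKER ρ ε hρ hP.h2 hP.h3
  have hcos : 0 < Real.cos (Real.pi * ρ / 2) := by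
    apply Real.cos_pos_of_mem_Ioo
    constructor
    · have := Real.pi_pos
      nlinarith [mul_pos this hρ]
    · have h1 := Real.pi_pos
      have h2 := hP.h2
      nlinarith [mul_pos h1 (sub_pos.2 h2)]
  have hκ : 0 < ε * Real.cos (Real.pi * ρ / 2) := mul_pos hP.h3 hcos
  obtain ⟨D, hD⟩ := pow_dom ρ0 ρ _ hP.h0 hP.h1 hκ
  refine ⟨(c.im ^ k)⁻¹ * Real.exp (D + ‖c‖ ^ ρ0), by positivity, ?_⟩
  intro a η hη z hz
  set Z : ℂ := ((a : ℂ) + η * Complex.I) * (z.2 : ℂ) - (z.1 : ℂ) + c with hZ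
  have hlow : c.im ≤ ‖Z‖ := base_low a η c hη z.1 z.2 hz
  have hup : |z.1 - a * z.2| ≤ ‖Z‖ + ‖c‖ := base_up a η c z.1 z.2
  have hZim : 0 < Z.im := by
    have h2 : Z.im = η * z.2 + c.im := base_im a η c z.1 z.2
    have h5 : 0 ≤ η * z.2 := mul_nonneg hη hz
    linarith
  have hE1 := hE Z hZim
  have hD1 := hD ‖Z‖ (norm_nonneg _)
  have h1 : |z.1 - a * z.2| ^ ρ0 ≤ ‖Z‖ ^ ρ0 + ‖c‖ ^ ρ0 :=
    (Real.rpow_le_rpow (abs_nonneg _) hup hP.h0.le).trans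
      (Real.rpow_add_le_add_rpow (norm_nonneg _) (norm_nonneg _) hP.h0.le hρ1.le)
  have h2 : ‖Pool.Agent.Run7.h500.RD.ker k c ((a : ℂ) + η * Complex.I) z‖ ≤ (c.im ^ k)⁻¹ := by
    unfold Pool.Agent.Run7.h500.RD.ker
    rw [norm_inv, norm_pow]
    exact inv_anti₀ (by positivity) (pow_le_pow_left₀ hc.le hlow k)
  have h3 : ‖EE ρ ε Z‖ ≤ Real.exp (D + ‖c‖ ^ ρ0) * Real.exp (-(|z.1 - a * z.2| ^ ρ0)) := by
    refine hE1.trans ?_
    rw [← Real.exp_add]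
    apply Real.exp_le_exp.2
    linarith
  unfold ker2
  rw [norm_mul, mul_assoc]
  exact mul_le_mul h2 h3 (norm_nonneg _) (by positivity)

theorem t_LIM2 : S_LIM2 := by
  intro hKER ρ0 ρ ε k c hP hc f hf a hW
  obtain ⟨B, hB, hbd⟩ := ker2_bound hKER ρ0 ρ ε k c hP hc
  have hρ : 0 < ρ := hP.h0.trans hP.h1
  obtain ⟨hdiff, -, -, -⟩ := hKER ρ ε hρ hP.h2 hP.h3
  unfold Vp2
  refine tendsto_integral_filter_of_dominated_convergence
    (fun z => B * ‖f z * Real.exp (-(|z.1 - a * z.2| ^ ρ0))‖) ?_ ?_ ?_ ?_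
  · refine Eventually.of_forall fun η => ?_
    refine Measurable.aestronglyMeasurable ?_
    have hm : Measurable f := hf.measurable
    unfold ker2 EE Pool.Agent.Run7.h500.RD.ker
    fun_prop
  · filter_upwards [self_mem_nhdsWithin] with η hη
    rw [ae_restrict_iff' up_meas]
    refine Eventually.of_forall fun z hz => ?_
    have h := hbd a η (le_of_lt hη) z (le_of_lt hz)
    rw [norm_mul, Complex.norm_real, norm_mul, Real.norm_of_nonneg (Real.exp_pos _).le]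
    calc ‖f z‖ * ‖ker2 ρ ε k c ((a : ℂ) + η * Complex.I) z‖
        ≤ ‖f z‖ * (B * Real.exp (-(|z.1 - a * z.2| ^ ρ0))) :=
          mul_le_mul_of_nonneg_left h (norm_nonneg _)
      _ = B * (‖f z‖ * Real.exp (-(|z.1 - a * z.2| ^ ρ0))) := by ring
  · exact (hW.norm.const_mul _).integrableOn
  · rw [ae_restrict_iff' up_meas]
    refine Eventually.of_forall fun z hz => ?_
    have him : 0 < ((a : ℂ) * (z.2 : ℂ) - (z.1 : ℂ) + c).im := by
      simpa using hc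
    have h0 : ((a : ℂ) * (z.2 : ℂ) - (z.1 : ℂ) + c) ≠ 0 := by
      intro h
      rw [h] at him
      simp at him
    have h1 : Tendsto (fun η : ℝ => ((a : ℂ) + η * Complex.I)) (𝓝[>] 0) (𝓝 (a : ℂ)) := by
      have h2 : Continuous fun η : ℝ => ((a : ℂ) + η * Complex.I) := by fun_prop
      have h3 := (h2.tendsto 0).mono_left (nhdsWithin_le_nhds (s := Ioi (0 : ℝ)))
      simpa using h3
    have h4 : Tendsto (fun η : ℝ => ((a : ℂ) + η * Complex.I) * (z.2 : ℂ) - (z.1 : ℂ) + c)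
        (𝓝[>] 0) (𝓝 ((a : ℂ) * (z.2 : ℂ) - (z.1 : ℂ) + c)) :=
      ((h1.mul_const _).sub_const _).add_const _
    have hopen : IsOpen {Z : ℂ | 0 < Z.im} := isOpen_lt continuous_const Complex.continuous_im
    have h5 : ContinuousAt (EE ρ ε) ((a : ℂ) * (z.2 : ℂ) - (z.1 : ℂ) + c) :=
      (hdiff.differentiableAt (hopen.mem_nhds him)).continuousAt
    unfold ker2 Pool.Agent.Run7.h500.RD.ker
    refine Tendsto.const_mul _ ?_
    refine Tendsto.mul ?_ (h5.tendsto.comp h4)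
    refine Tendsto.inv₀ ?_ (pow_ne_zero k h0)
    exact h4.pow k

end Pool.Agent.Run7.h617.RD.LIM2
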