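import Pool.Agent.Run7.h500.RD.Stm2
/-! # Piece VB2 (helper617; after helper62's VB) -/
set_option autoImplicit false
open MeasureTheory Filter Topology Set

namespace Pool.Agent.Run7.h617.RD.VB2
open Pool.Agent.Run7.h500.RD

/-- reflection in the x axis as a measurable equivalence -/
def refl2 : ℝ × ℝ ≃ᵐ ℝ × ℝ :=
  MeasurableEquiv.prodCongr (MeasurableEquiv.refl ℝ) (MeasurableEquiv.neg ℝ)

theorem refl2_apply (z : ℝ × ℝ) : refl2 z = (z.1, -z.2) := rfl

theorem refl2_mp : MeasurePreserving refl2 (volume : Measure (ℝ × ℝ)) volume :=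
  (MeasurePreserving.id (volume : Measure ℝ)).prod (Measure.measurePreserving_neg volume)

theorem WE_flip (f : ℝ × ℝ → ℝ) (ρ0 : ℝ) (a : ℝ) (h : WE f ρ0 a) :
    WE (Pool.Agent.Run7.h500.RD.flip f) ρ0 (-a) := by
  unfold WE at *
  have h2 := (refl2_mp.integrable_comp_emb refl2.measurableEmbedding).2 h
  refine h2.congr (Eventually.of_forall (fun z => ?_))
  simp only [Function.comp, refl2_apply, Pool.Agent.Run7.h500.RD.flip]
  have e : z.1 - a * -z.2 = z.1 - -a * z.2 := by ring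
  rw [e]

theorem NE_flip (f : ℝ × ℝ → ℝ) (ρ0 : ℝ) (a : ℝ) :
    NE (Pool.Agent.Run7.h500.RD.flip f) ρ0 (-a) = NE f ρ0 a := by
  unfold NE
  rw [← refl2_mp.integral_comp refl2.measurableEmbedding
    (fun z : ℝ × ℝ => |f z| * Real.exp (-(|z.1 - a * z.2| ^ ρ0)))]
  refine integral_congr_ae (Eventually.of_forall (fun z => ?_))
  simp only [refl2_apply, Pool.Agent.Run7.h500.RD.flip]
  have e : z.1 - a * -z.2 = z.1 - -a * z.2 := by ring
  rw [e]

theorem t_VB2 : S_VB2 := by
  intro hKER hVERT hLIM hFUB ρ0 ρ ε k c hP hc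
  obtain ⟨B, hB, hV⟩ := hVERT hKER ρ0 ρ ε k c hP hc
  refine ⟨B, hB, ?_⟩
  intro f hcont hzero a hWE
  have hflipc : Continuous (Pool.Agent.Run7.h500.RD.flip f) := by
    unfold Pool.Agent.Run7.h500.RD.flip
    exact hcont.comp (by fun_prop)
  have hW' := WE_flip f ρ0 a hWE
  have hpos : ∀ η : ℝ, 0 < η →
      V2 f ρ ε k c ((a : ℂ) + η * Complex.I) = Vp2 f ρ ε k c ((a : ℂ) + η * Complex.I) := by
    intro η hη
    unfold V2
    rw [if_pos]
    simpa using hη
  have hneg : ∀ η : ℝ, η < 0 →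
      V2 f ρ ε k c ((a : ℂ) + η * Complex.I) = - Vp2 (Pool.Agent.Run7.h500.RD.flip f) ρ ε k c
        (((-a : ℝ) : ℂ) + ((-η : ℝ) : ℂ) * Complex.I) := by
    intro η hη
    unfold V2
    rw [if_neg]
    · congr 2
      push_cast
      ring
    · simpa using hη.le
  constructor
  · intro η hη
    rcases lt_or_gt_of_ne hη with h0 | h0
    · rw [hneg η h0, norm_neg]
      have := (hV (Pool.Agent.Run7.h500.RD.flip f) hflipc (-a) (-η) hW'
        (by linarith)).2
      rwa [NE_flip] at this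
    · rw [hpos η h0]
      exact (hV f hcont a η hWE h0.le).2
  · rw [← nhdsLT_sup_nhdsGT, tendsto_sup]
    constructor
    · have h1 := hLIM hKER ρ0 ρ ε k c hP hc (Pool.Agent.Run7.h500.RD.flip f) hflipc (-a) hW'
      have h2 : Tendsto (fun η : ℝ => -η) (𝓝[<] 0) (𝓝[>] 0) := by
        simpa using tendsto_neg_nhdsLT (a := (0:ℝ))
      have h3 := (h1.comp h2).neg
      have h4 : - Vp2 (Pool.Agent.Run7.h500.RD.flip f) ρ ε k c ((-a : ℝ) : ℂ) =
          Vp2 f ρ ε k c (a : ℂ) := by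
        have := hFUB hKER ρ0 ρ ε k c hP hc f hcont hzero a hWE
        push_cast
        linear_combination -this
      rw [h4] at h3
      refine h3.congr' ?_
      filter_upwards [self_mem_nhdsWithin] with η hη
      rw [hneg η hη]
      rfl
    · refine (hLIM hKER ρ0 ρ ε k c hP hc f hcont a hWE).congr' ?_
      filter_upwards [self_mem_nhdsWithin] with η hη
      rw [hpos η hη]

end Pool.Agent.Run7.h617.RD.VB2
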